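import Pool.Agent.Zk71.S2.Dos
import Pool.Agent.Zk93.TE.Abel

/-! The Abel form of the diffusion theorem in two dimensions, all energies together. -/

set_option autoImplicit false
set_option linter.unusedSectionVars false

open scoped BigOperators Topology
open MeasureTheory Filter

namespace Pool.Agent.Zk71.S2

open Pool.Agent.Zk11.QD

open Pool.Agent.Zk71.D2 (g2 Ok bv2 g2_pos h2_pos g2_po Rg)

/-- bulk energies carry the whole mass -/
theorem bulk2 {Q : ℝ → ℂ} {Q0 g m : ℝ → ℝ} {S I : Set ℝ} {w M ε₁ ε₂ : ℝ}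
    (hIm : MeasurableSet I) (hSm : MeasurableSet S) (hsub : I ⊆ S) (hfin : volume I < ⊤)
    (hw : volume.real I ≤ w) (hε₂ : 0 ≤ ε₂) (hQ : Integrable Q)
    (hQ0 : Integrable Q0) (hle : ∀ E, ‖Q E‖ ≤ Q0 E) (hM : ∫ E, Q0 E = M)
    (hg : IntegrableOn g S) (hm : IntegrableOn m S)
    (hm0 : ∀ E ∈ S, 0 ≤ m E) (hmg : ∀ E ∈ S, m E ≤ g E)
    (hgM : ∫ E in S, g E ≤ M) (hgI : M - ε₁ ≤ ∫ E in I, g E)
    (h1 : ∀ E ∈ I, ‖Q E - (m E : ℂ)‖ ≤ ε₂)
    (h2 : ∀ E ∈ I, |Q0 E - g E| ≤ ε₂) :
    ‖(∫ E, Q E) - ((∫ E in S, m E : ℝ) : ℂ)‖ ≤ 2 * ε₁ + 2 * (ε₂ * w) := by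
  have hvol : ε₂ * volume.real I ≤ ε₂ * w := mul_le_mul_of_nonneg_left hw hε₂
  have hgi : IntegrableOn g I := hg.mono_set hsub
  have hmi : IntegrableOn m I := hm.mono_set hsub
  -- on the bulk
  have b1 : ‖(∫ E in I, Q E) - ((∫ E in I, m E : ℝ) : ℂ)‖ ≤ ε₂ * w := by
    have hmc : IntegrableOn (fun E => (m E : ℂ)) I := hmi.ofReal (𝕜 := ℂ)
    rw [← integral_complex_ofReal, ← integral_sub hQ.integrableOn hmc]
    exact (norm_setIntegral_le_of_norm_le_const hfin h1).trans hvol
  have b2 : (∫ E in I, g E) - ε₂ * w ≤ ∫ E in I, Q0 E := by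
    have h3 : |∫ E in I, (Q0 E - g E)| ≤ ε₂ * w := by
      rw [← Real.norm_eq_abs]
      exact (norm_setIntegral_le_of_norm_le_const hfin h2).trans hvol
    rw [integral_sub hQ0.integrableOn hgi] at h3
    have := (abs_le.1 h3).1
    linarith
  -- off the bulk
  have b3 : ‖∫ E in Iᶜ, Q E‖ ≤ ε₁ + ε₂ * w := by
    have h3 : ‖∫ E in Iᶜ, Q E‖ ≤ ∫ E in Iᶜ, Q0 E :=
      norm_integral_le_of_norm_le hQ0.integrableOn (Eventually.of_forall hle)
    have h4 := integral_add_compl hIm hQ0
    rw [hM] at h4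
    linarith
  have b4 : |(∫ E in S, m E) - ∫ E in I, m E| ≤ ε₁ := by
    have e1 := setIntegral_sdiff hIm hm hsub
    have e2 := setIntegral_sdiff hIm hg hsub
    rw [← e1]
    have hdm : MeasurableSet (S \ I) := hSm.diff hIm
    have h3 : 0 ≤ ∫ E in S \ I, m E :=
      setIntegral_nonneg hdm fun E hE => hm0 E hE.1
    have h4 : ∫ E in S \ I, m E ≤ ∫ E in S \ I, g E :=
      setIntegral_mono_on (hm.mono_set Set.sdiff_subset) (hg.mono_set Set.sdiff_subset) hdm
        fun E hE => hmg E hE.1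
    rw [abs_of_nonneg h3]
    rw [e2] at h4
    linarith
  have h5 := integral_add_compl hIm hQ
  rw [← h5]
  have e3 : (∫ E in I, Q E) + (∫ E in Iᶜ, Q E) - ((∫ E in S, m E : ℝ) : ℂ) =
      ((∫ E in I, Q E) - ((∫ E in I, m E : ℝ) : ℂ)) + (∫ E in Iᶜ, Q E) -
        (((∫ E in S, m E) - ∫ E in I, m E : ℝ) : ℂ) := by
    push_cast
    ring
  rw [e3]
  refine (norm_sub_le _ _).trans ?_
  rw [Complex.norm_real, Real.norm_eq_abs]
  refine (add_le_add (norm_add_le _ _) le_rfl).trans ?_
  linarith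

theorem cont_of (f : ℝ → ℂ) (hf : ∀ E1 E2 : ℝ, E1 ≤ E2 → Ok E1 E2 → ContinuousOn f (Set.Icc E1 E2)) :
    ContinuousOn f Sx := by
  intro E hE
  rcases hE with h | h
  · have h1 := hf (E / 2) ((E + 4) / 2) (by linarith [h.1]) (Or.inl ⟨by linarith [h.1],
      by linarith [h.2]⟩)
    exact (h1.continuousAt (Icc_mem_nhds (by linarith [h.1]) (by linarith [h.2]))).continuousWithinAt
  · have h1 := hf ((E + 4) / 2) ((E + 8) / 2) (by linarith [h.1]) (Or.inr ⟨by linarith [h.1],
      by linarith [h.2]⟩)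
    exact (h1.continuousAt (Icc_mem_nhds (by linarith [h.1]) (by linarith [h.2]))).continuousWithinAt

/-- `π` times the density of states -/
noncomputable def gg (E : ℝ) : ℝ := Sx.indicator (fun E => (g2 E).im) E

/-- `π` times the velocity weighted density of states -/
noncomputable def hh (E : ℝ) : ℝ := Sx.indicator (fun E => (D2.h2 E).im) E

theorem gg_eq {E : ℝ} (h : E ∈ Sx) : gg E = (g2 E).im := Set.indicator_of_mem h _

theorem hh_eq {E : ℝ} (h : E ∈ Sx) : hh E = (D2.h2 E).im := Set.indicator_of_mem h _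

theorem gg_pos {E : ℝ} (h : E ∈ Sx) : 0 < gg E := by
  rw [gg_eq h]
  exact g2_pos E (Sx_ok h)

theorem hh_pos {E : ℝ} (h : E ∈ Sx) : 0 < hh E := by
  rw [hh_eq h]
  exact h2_pos E (Sx_ok h)

theorem gg_meas : Measurable gg := by
  classical
  have h1 : ContinuousOn g2 Sx := cont_of g2 fun E1 E2 h12 hO => by
    obtain ⟨r, C, hb⟩ := bv2 E1 E2 h12 hO
    exact hb.cg
  have h2 := ContinuousOn.measurable_piecewise (f := fun E => (g2 E).im) (g := fun _ => (0 : ℝ))
    (Complex.continuous_im.comp_continuousOn h1) continuousOn_const Sx_ms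
  have e1 : Sx.piecewise (fun E => (g2 E).im) (fun _ => (0 : ℝ)) = gg := by
    funext E
    unfold gg
    by_cases h : E ∈ Sx
    · rw [Set.piecewise_eq_of_mem _ _ _ h, Set.indicator_of_mem h]
    · rw [Set.piecewise_eq_of_notMem _ _ _ h, Set.indicator_of_notMem h]
  rw [e1] at h2
  exact h2

theorem hh_meas : Measurable hh := by
  classical
  have h1 : ContinuousOn D2.h2 Sx := cont_of D2.h2 fun E1 E2 h12 hO => by
    obtain ⟨r, C, hb⟩ := bv2 E1 E2 h12 hO
    exact hb.ch
  have h2 := ContinuousOn.measurable_piecewise (f := fun E => (D2.h2 E).im) (g := fun _ => (0 : ℝ))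
    (Complex.continuous_im.comp_continuousOn h1) continuousOn_const Sx_ms
  have e1 : Sx.piecewise (fun E => (D2.h2 E).im) (fun _ => (0 : ℝ)) = hh := by
    funext E
    unfold hh
    by_cases h : E ∈ Sx
    · rw [Set.piecewise_eq_of_mem _ _ _ h, Set.indicator_of_mem h]
    · rw [Set.piecewise_eq_of_notMem _ _ _ h, Set.indicator_of_notMem h]
  rw [e1] at h2
  exact h2

theorem gg_int : IntegrableOn gg Sx :=
  (integrableOn_congr_fun (fun _ hE => (gg_eq hE).symm) Sx_ms).1 dos_int2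

theorem gg_one : ∫ E in Sx, gg E = Real.pi := by
  rw [← dos_one2]
  exact setIntegral_congr_fun Sx_ms fun E hE => gg_eq hE

theorem gg_bulk (ε : ℝ) (hε : 0 < ε) : ∃ x : ℝ, 0 < x ∧ x ≤ 1 ∧
    Real.pi - ε ≤ ∫ u in Ib x, gg u := by
  obtain ⟨x, h1, h2, h3⟩ := dos_bulk ε hε
  refine ⟨x, h1, h2, h3.trans (le_of_eq ?_)⟩
  exact setIntegral_congr_fun (Ib_ms x) fun E hE => (gg_eq (Ib_sub h1 hE)).symm

/-- the diffusion constant -/
noncomputable def Dd2 (V E : ℝ) : ℝ := hh E / (4 * gg E ^ 2 * V)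

theorem Dd2_nonneg {V : ℝ} (hV : 0 < V) {E : ℝ} (hE : E ∈ Sx) :
    0 ≤ Dd2 V E := by
  have := gg_pos hE
  have := hh_pos hE
  unfold Dd2
  positivity

theorem Dd2_meas (V : ℝ) : Measurable (Dd2 V) := by
  unfold Dd2
  exact hh_meas.div
    (((measurable_const.mul (gg_meas.pow_const 2))).mul_const V)

/-- the limit in Abel form -/
noncomputable def Mf2 (V c : ℝ) : ℝ :=
  ∫ E in Sx, gg E / (1 + Dd2 V E * c)

/-- the limit at a fixed time -/
noncomputable def Mt2 (V c τ : ℝ) : ℝ :=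
  ∫ E in Sx, gg E * Real.exp (-(2 * τ * Dd2 V E * c))

theorem Mf2_int {V : ℝ} (hV : 0 < V) {c : ℝ} (hc : 0 ≤ c) :
    IntegrableOn (fun E => gg E / (1 + Dd2 V E * c)) Sx := by
  refine Integrable.mono' (gg_int) ?_ ?_
  · exact (gg_meas.div
      (measurable_const.add ((Dd2_meas V).mul_const c))).aestronglyMeasurable
  · refine (ae_restrict_mem Sx_ms).mono fun E hE => ?_
    have h1 := Dd2_nonneg hV hE
    have h2 := gg_pos hE
    rw [Real.norm_eq_abs, abs_of_nonneg (by positivity)]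
    exact div_le_self h2.le (by have := mul_nonneg h1 hc; linarith)

/-- Laplace transform of the limit -/
theorem Mt2_lap {V : ℝ} (hV : 0 < V) {c : ℝ} (hc : 0 ≤ c) (s : ℝ) (hs : 0 < s) :
    IntegrableOn (fun τ => s * Real.exp (-(s * τ)) * Mt2 V c τ) (Set.Ioi 0) ∧
    ∫ τ in Set.Ioi (0 : ℝ), s * Real.exp (-(s * τ)) * Mt2 V c τ = Mf2 V (2 * c / s) := by
  set f : ℝ → ℝ → ℝ := fun τ E => s * Real.exp (-(s * τ)) *
    (gg E * Real.exp (-(2 * τ * Dd2 V E * c))) with hf
  have hmeas : Measurable (Function.uncurry f) := by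
    rw [hf]
    unfold Function.uncurry
    have m1 : Measurable fun p : ℝ × ℝ => gg p.2 :=
      gg_meas.comp measurable_snd
    have m2 : Measurable fun p : ℝ × ℝ => Dd2 V p.2 := (Dd2_meas V).comp measurable_snd
    have m3 : Measurable fun p : ℝ × ℝ => p.1 := measurable_fst
    exact ((measurable_const.mul (Real.measurable_exp.comp ((measurable_const.mul m3).neg)))).mul
      (m1.mul (Real.measurable_exp.comp ((((measurable_const.mul m3).mul m2).mul_const c).neg)))
  have hint : Integrable (Function.uncurry f)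
      ((volume.restrict (Set.Ioi 0)).prod (volume.restrict Sx)) := by
    have h1 : Integrable (fun τ : ℝ => s * Real.exp (-(s * τ))) (volume.restrict (Set.Ioi 0)) :=
      (exp_int s hs).const_mul s
    have h2 := h1.mul_prod (gg_int)
    refine Integrable.mono' h2 hmeas.aestronglyMeasurable ?_
    rw [Measure.prod_restrict]
    refine (ae_restrict_mem (measurableSet_Ioi.prod Sx_ms)).mono fun p hp => ?_
    obtain ⟨hp1, hp2⟩ := hp
    have hp1' : 0 < p.1 := hp1
    have h3 := Dd2_nonneg hV hp2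
    have h4 := gg_pos hp2
    rw [hf]
    unfold Function.uncurry
    simp only
    rw [Real.norm_eq_abs, abs_of_nonneg (by positivity)]
    refine mul_le_mul_of_nonneg_left ?_ (by positivity)
    refine mul_le_of_le_one_right h4.le ?_
    rw [Real.exp_le_one_iff]
    have : 0 ≤ 2 * p.1 * Dd2 V p.2 * c := by positivity
    linarith
  have hswap := integral_integral_swap hint
  have e1 : ∀ τ, ∫ E in Sx, f τ E = s * Real.exp (-(s * τ)) * Mt2 V c τ := by
    intro τ
    rw [hf]
    unfold Mt2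
    simp only
    rw [integral_const_mul]
  refine ⟨?_, ?_⟩
  · have h5 := hint.integral_prod_left
    refine h5.congr (Eventually.of_forall fun τ => ?_)
    exact e1 τ
  · simp only [e1] at hswap
    rw [hswap]
    unfold Mf2
    refine setIntegral_congr_fun Sx_ms fun E hE => ?_
    have h3 := Dd2_nonneg hV hE
    have hpos : 0 < s + 2 * Dd2 V E * c := by positivity
    have e2 : ∀ τ, f τ E = s * gg E * Real.exp (-((s + 2 * Dd2 V E * c) * τ)) := by
      intro τ
      rw [hf]
      simp only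
      have : Real.exp (-((s + 2 * Dd2 V E * c) * τ)) =
          Real.exp (-(s * τ)) * Real.exp (-(2 * τ * Dd2 V E * c)) := by
        rw [← Real.exp_add]
        congr 1
        ring
      rw [this]
      ring
    simp only [e2]
    rw [integral_const_mul, exp_val _ hpos]
    have h1 : 0 < 1 + Dd2 V E * (2 * c / s) := by positivity
    field_simp

theorem Mt2_bd {V : ℝ} (hV : 0 < V) {c : ℝ} (hc : 0 ≤ c) (τ : ℝ) (hτ : 0 ≤ τ) :
    0 ≤ Mt2 V c τ ∧ Mt2 V c τ ≤ Real.pi := by
  unfold Mt2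
  constructor
  · refine setIntegral_nonneg Sx_ms fun E hE => ?_
    have h4 := gg_pos hE
    positivity
  · rw [← gg_one]
    refine integral_mono_of_nonneg ?_ (gg_int) ?_
    · refine (ae_restrict_mem Sx_ms).mono fun E hE => ?_
      have h4 := gg_pos hE
      simp only [Pi.zero_apply]
      positivity
    · refine (ae_restrict_mem Sx_ms).mono fun E hE => ?_
      have h4 := gg_pos hE
      have h3 := Dd2_nonneg hV hE
      refine mul_le_of_le_one_right h4.le ?_
      rw [Real.exp_le_one_iff]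
      have : 0 ≤ 2 * τ * Dd2 V E * c := by positivity
      linarith

theorem Mt2_meas (V c : ℝ) : StronglyMeasurable (Mt2 V c) := by
  unfold Mt2
  have m1 : Measurable fun p : ℝ × ℝ => gg p.2 :=
    gg_meas.comp measurable_snd
  have m2 : Measurable fun p : ℝ × ℝ => Dd2 V p.2 := (Dd2_meas V).comp measurable_snd
  have m3 : Measurable fun p : ℝ × ℝ => p.1 := measurable_fst
  have h : Measurable (Function.uncurry fun τ E : ℝ =>
      gg E * Real.exp (-(2 * τ * Dd2 V E * c))) := by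
    unfold Function.uncurry
    exact m1.mul (Real.measurable_exp.comp ((((measurable_const.mul m3).mul m2).mul_const c).neg))
  exact h.stronglyMeasurable.integral_prod_right

end Pool.Agent.Zk71.S2
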