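import Pool.Agent.Zk71.S2.Main
import Pool.Agent.Zk93.TE.AnnM

/-! The disorder average of the evolution in two dimensions: the theorem. -/

set_option autoImplicit false
set_option linter.unusedSectionVars false

open scoped BigOperators Topology
open MeasureTheory Filter

namespace Pool.Agent.Zk71.S2

open Pool.Agent.Zk11.QD hiding ex ex_norm
open Pool.Agent.Zk93.TE
open Pool.Agent.Zk11.QQ (Gc Gc_isG sh ex ex_norm Ph FZ sh_map sh_meas)

attribute [local irreducible] Spc SBc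

theorem evoA2 (b v0 : ℝ) (hv0 : 0 < v0) (κ : ℝ) (hκ0 : 0 < κ) (hκ1 : κ < 1 / 3)
    (R : ℝ) (ε : ℝ) (hε : 0 < ε) :
    ∃ δ : ℝ, 0 < δ ∧ ∀ (μ : Measure ℝ) [IsProbabilityMeasure μ], (∀ᵐ s ∂μ, |s| ≤ b) →
      ∀ V : ℝ, V = ∫ s, (s - ∫ t, t ∂μ) ^ 2 ∂μ → v0 ≤ V → ∀ lam : ℝ, 0 < lam → lam < δ →
      ∀ ψ : (Zd 2 → ℝ) → ℝ → Zd 2 → ℂ, (∀ᵐ ω ∂(PZ 2 μ), Ev lam ω 0 (ψ ω)) →
      (∀ t, Summable fun x => ∫ ω, ‖ψ ω t x‖ ^ 2 ∂(PZ 2 μ)) ∧
      ∀ T : ℝ, lam ^ (-2 : ℝ) / δ ≤ T → T ≤ lam ^ (-(2 + κ)) →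
      ∀ P : Fin 2 → ℝ, (∀ j, |P j| ≤ R) → ∀ a c : ℝ, 0 ≤ a → a ≤ c → c ≤ R →
      ‖∫ τ in a..c, ((∑' x : Zd 2, ex (fun j => lam / Real.sqrt T * P j) x *
          ((∫ ω, ‖ψ ω (τ * T) x‖ ^ 2 ∂(PZ 2 μ) : ℝ) : ℂ)) -
          ((Real.pi⁻¹ * Mt2 V (∑ j, P j ^ 2) τ : ℝ) : ℂ))‖ ≤ ε := by
  classical
  have hpi := Real.pi_pos
  obtain ⟨δ1, hδ1, h1⟩ := evo2 b v0 hv0 κ hκ0 hκ1 (7 + 3 * κ) 1 one_pos (by linarith) R
    (ε / 2) (by positivity)
  set δ : ℝ := min (min δ1 1) (ε / (4 * (|R| + 1))) with hδ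
  have hR0 := abs_nonneg R
  have hδ0 : 0 < δ := by
    rw [hδ]
    exact lt_min (lt_min hδ1 one_pos) (by positivity)
  have hδa : δ ≤ δ1 := (min_le_left _ _).trans (min_le_left _ _)
  have hδc : δ ≤ ε / (4 * (|R| + 1)) := min_le_right _ _
  refine ⟨δ, hδ0, fun μ hμ hb V hV hv lam hl0 hl1 ψ hψ => ?_⟩
  have hb0 : 0 ≤ b := by
    obtain ⟨s, hs⟩ := hb.exists
    exact (abs_nonneg s).trans hs
  have hV0 : 0 < V := lt_of_lt_of_le hv0 hv
  refine ⟨fun t => (Spc_tsum μ hb0 hb lam 0 t ψ hψ).1, fun T hT1 hT2 P hP a c ha hac hcR => ?_⟩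
  -- the set `B`
  obtain ⟨B, hBc⟩ := Infinite.exists_subset_card_eq (Zd 2) ⌈lam ^ (-(7 + 3 * κ))⌉₊
  have hBcard : lam ^ (-(7 + 3 * κ)) ≤ (B.card : ℝ) := by
    rw [hBc]
    exact Nat.le_ceil _
  have hBne : B.Nonempty := by
    rw [← Finset.card_pos]
    have h2 : (0 : ℝ) < lam ^ (-(7 + 3 * κ)) := by positivity
    exact_mod_cast lt_of_lt_of_le h2 hBcard
  obtain ⟨Good, hGm, hGp, hGb, hG⟩ := h1 μ hb V hV hv lam hl0 (lt_of_lt_of_le hl1 hδa) {B}
    (by
      rw [Finset.card_singleton, Nat.cast_one]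
      exact Real.one_le_exp (by positivity))
    (by
      intro B' hB'
      rw [Finset.mem_singleton] at hB'
      rw [hB']
      exact hBcard)
  set θ : Fin 2 → ℝ := fun j => lam / Real.sqrt T * P j with hθ
  set cc : ℝ := ∑ j, P j ^ 2 with hcc
  have hcc0 : 0 ≤ cc := Finset.sum_nonneg fun _ _ => by positivity
  set L : ℝ → ℂ := fun τ => ((Real.pi⁻¹ * Mt2 V cc τ : ℝ) : ℂ) with hL
  have hLm : StronglyMeasurable L := Complex.continuous_ofReal.comp_stronglyMeasurable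
    (stronglyMeasurable_const.mul (Mt2_meas V cc))
  have hLb : ∀ τ, 0 < τ → ‖L τ‖ ≤ 1 := by
    intro τ hτ
    have h2 := Mt2_bd hV0 hcc0 τ hτ.le
    rw [hL]
    simp only
    rw [Complex.norm_real, Real.norm_eq_abs, abs_of_nonneg (mul_nonneg (by positivity) h2.1),
      inv_mul_le_iff₀ hpi, mul_one]
    exact h2.2
  -- the integrand
  set D : ℝ → (Zd 2 → ℝ) → ℂ := fun τ ω => SBc lam b θ B (τ * T) ω - L τ with hD
  have hDm : Measurable (Function.uncurry D) := by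
    have h3 : Measurable fun p : ℝ × (Zd 2 → ℝ) => (p.1 * T, p.2) :=
      (measurable_fst.mul_const T).prodMk measurable_snd
    have h4 := (SBc_meas2 hb0 lam θ B).comp h3
    have h5 : Measurable fun p : ℝ × (Zd 2 → ℝ) => L p.1 := hLm.measurable.comp measurable_fst
    exact h4.sub h5
  have hDb : ∀ τ ω, 0 < τ → ‖D τ ω‖ ≤ 2 := by
    intro τ ω hτ
    refine (norm_sub_le _ _).trans ?_
    have := SBc_le hb0 lam θ B (τ * T) ω
    have := hLb τ hτ
    linarith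
  have hprod : Integrable (Function.uncurry D)
      ((volume.restrict (Set.Ioc a c)).prod (PZ 2 μ)) := by
    refine Integrable.mono' (integrable_const (2 : ℝ)) hDm.aestronglyMeasurable ?_
    have h6 : ∀ᵐ p ∂((volume.restrict (Set.Ioc a c)).prod (PZ 2 μ)), p.1 ∈ Set.Ioc a c := by
      have h7 : ∀ᵐ τ ∂(volume.restrict (Set.Ioc a c)), τ ∈ Set.Ioc a c :=
        ae_restrict_mem measurableSet_Ioc
      exact (Measure.quasiMeasurePreserving_fst
        (μ := volume.restrict (Set.Ioc a c)) (ν := PZ 2 μ)).ae h7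
    filter_upwards [h6] with p hp
    exact hDb p.1 p.2 (lt_of_le_of_lt ha hp.1)
  -- the mean
  have hmean : ∀ τ : ℝ, (∑' x : Zd 2, ex θ x *
      ((∫ ω, ‖ψ ω (τ * T) x‖ ^ 2 ∂(PZ 2 μ) : ℝ) : ℂ)) - L τ = ∫ ω, D τ ω ∂(PZ 2 μ) := by
    intro τ
    rw [(Spc_tsum μ hb0 hb lam θ (τ * T) ψ hψ).2, ← SBc_mean μ hb0 lam θ B hBne (τ * T)]
    have hi : Integrable (fun ω => SBc lam b θ B (τ * T) ω) (PZ 2 μ) := by
      have h3 := (SBc_meas2 hb0 lam θ B).comp (measurable_prodMk_left (x := τ * T))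
      exact Integrable.mono' (integrable_const 1) h3.aestronglyMeasurable
        (Eventually.of_forall fun ω => SBc_le hb0 lam θ B _ ω)
    have h4 : ∫ ω, D τ ω ∂(PZ 2 μ) = (∫ ω, SBc lam b θ B (τ * T) ω ∂(PZ 2 μ)) -
        ∫ _ω, L τ ∂(PZ 2 μ) := integral_sub hi (integrable_const _)
    rw [h4]
    simp
  rw [intervalIntegral.integral_of_le hac]
  have h5 : ∫ τ in Set.Ioc a c, ((∑' x : Zd 2, ex θ x *
      ((∫ ω, ‖ψ ω (τ * T) x‖ ^ 2 ∂(PZ 2 μ) : ℝ) : ℂ)) - L τ) =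
      ∫ ω, (∫ τ in Set.Ioc a c, D τ ω) ∂(PZ 2 μ) := by
    simp only [hmean]
    exact integral_integral_swap hprod
  rw [h5]
  -- pointwise bounds
  have h6 : ∀ᵐ ω ∂(PZ 2 μ), ‖∫ τ in Set.Ioc a c, D τ ω‖ ≤
      ε / 2 + Goodᶜ.indicator (fun _ => 2 * |R|) ω := by
    refine Eventually.of_forall fun ω => ?_
    by_cases hω : ω ∈ Good
    · rw [Set.indicator_of_notMem (by simpa using hω), add_zero]
      have h7 := hG ω hω (psi lam ω) (fun y => psi_ev (hGb ω hω) y) B (Finset.mem_singleton_self B)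
        T ((div_le_div_of_nonneg_left (by positivity) hδ0 hδa).trans hT1) hT2 P hP a c ha hac hcR
      rw [intervalIntegral.integral_of_le hac] at h7
      have h8 : ∀ τ, D τ ω = Df2 V cc θ B (psi lam ω) T τ := by
        intro τ
        rw [hD]
        simp only
        unfold Df2 SBc
        rw [cl_eq (hGb ω hω)]
      simp only [h8]
      exact h7
    · rw [Set.indicator_of_mem (by simpa using hω)]
      have h7 := norm_setIntegral_le_of_norm_le_const (μ := volume) (s := Set.Ioc a c)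
        (f := fun τ => D τ ω) (C := 2) (by simp) (fun τ hτ => hDb τ ω (lt_of_le_of_lt ha hτ.1))
      rw [Real.volume_real_Ioc_of_le hac] at h7
      have h8 : c - a ≤ |R| := by
        have := le_abs_self R
        linarith
      have h9 : (2 : ℝ) * (c - a) ≤ 2 * |R| := by linarith
      linarith
  have h7 : ‖∫ ω, (∫ τ in Set.Ioc a c, D τ ω) ∂(PZ 2 μ)‖ ≤
      ∫ ω, (ε / 2 + Goodᶜ.indicator (fun _ => 2 * |R|) ω) ∂(PZ 2 μ) := by
    refine norm_integral_le_of_norm_le ?_ h6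
    exact (integrable_const _).add ((integrable_const _).indicator hGm.compl)
  refine h7.trans ?_
  rw [integral_add (integrable_const _) ((integrable_const _).indicator hGm.compl),
    integral_indicator hGm.compl,
    integral_const, integral_const, measureReal_restrict_apply_univ, smul_eq_mul, smul_eq_mul,
    probReal_univ, one_mul]
  have h8 : (PZ 2 μ).real Goodᶜ ≤ lam := by
    rw [probReal_compl_eq_one_sub hGm]
    have h9 : Real.exp (-lam ^ (-(1 : ℝ))) ≤ lam := by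
      rw [Real.rpow_neg_one, Real.exp_neg, inv_le_comm₀ (Real.exp_pos _) hl0]
      have := Real.add_one_le_exp lam⁻¹
      linarith
    linarith
  have h9 : (PZ 2 μ).real Goodᶜ * (2 * |R|) ≤ ε / 2 := by
    have h10 : lam ≤ ε / (4 * (|R| + 1)) := hl1.le.trans hδc
    calc (PZ 2 μ).real Goodᶜ * (2 * |R|) ≤ (ε / (4 * (|R| + 1))) * (2 * (|R| + 1)) := by
          refine mul_le_mul (h8.trans h10) (by linarith) (by positivity) (by positivity)
      _ = ε / 2 := by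
          field_simp
          ring
  linarith

end Pool.Agent.Zk71.S2
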