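import Pool.Agent.Zk71.D2.GenA
import Pool.Agent.Zk93.TE.Dos

/-! The free density of states in two dimensions. -/

set_option autoImplicit false
set_option linter.unusedSectionVars false

open scoped BigOperators Topology
open MeasureTheory Filter

namespace Pool.Agent.Zk71.S2

open Pool.Agent.Zk11.QD
open Pool.Agent.Zk60.LL.Dos (po_integral po_nonneg)
open Pool.Agent.Zk93.TE (cube_vol)
open Pool.Agent.Zk71.D2 (g2 h2 Ok bv2 g2_pos h2_pos g2_po Rg)

theorem slice_ctb (c : ℝ) : {y : ℝ | Real.cos (2 * Real.pi * y) = c}.Countable := by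
  have hpi := Real.pi_pos
  by_cases h : ∃ y0, Real.cos (2 * Real.pi * y0) = c
  · obtain ⟨y0, hy0⟩ := h
    refine Set.Countable.mono (s₂ := Set.range (fun n : ℤ => (n : ℝ) + y0) ∪
      Set.range (fun n : ℤ => (n : ℝ) - y0)) ?_
      ((Set.countable_range _).union (Set.countable_range _))
    intro y hy
    have h1 : Real.cos (2 * Real.pi * y0) = Real.cos (2 * Real.pi * y) := hy0.trans hy.symm
    rw [Real.cos_eq_cos_iff] at h1
    obtain ⟨n, hn | hn⟩ := h1
    · left
      refine ⟨n, ?_⟩
      have h5 : ((n : ℝ) + y0) * (2 * Real.pi) = y * (2 * Real.pi) := by linarith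
      exact mul_right_cancel₀ (by positivity) h5
    · right
      refine ⟨n, ?_⟩
      have h5 : ((n : ℝ) - y0) * (2 * Real.pi) = y * (2 * Real.pi) := by linarith
      exact mul_right_cancel₀ (by positivity) h5
  · have : {y : ℝ | Real.cos (2 * Real.pi * y) = c} = ∅ := by
      ext y
      simp only [Set.mem_ofPred_eq, Set.mem_empty_iff_false, iff_false]
      exact fun hy => h ⟨y, hy⟩
    rw [this]
    exact Set.countable_empty

/-- the level sets are null sets -/
theorem lev_null (c : ℝ) : volume {k : Fin 2 → ℝ | ek k = c} = 0 := by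
  set S : Set (ℝ × ℝ) := {p | (2 - 2 * Real.cos (2 * Real.pi * p.1)) +
    (2 - 2 * Real.cos (2 * Real.pi * p.2)) = c} with hSd
  have hS : MeasurableSet S := by
    have hc : Continuous fun p : ℝ × ℝ => (2 - 2 * Real.cos (2 * Real.pi * p.1)) +
      (2 - 2 * Real.cos (2 * Real.pi * p.2)) := by fun_prop
    exact hc.measurable (measurableSet_singleton c)
  have e1 : {k : Fin 2 → ℝ | ek k = c} = MeasurableEquiv.finTwoArrow ⁻¹' S := by
    ext k
    simp only [Set.mem_ofPred_eq, Set.mem_preimage, hSd]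
    unfold ek
    rw [Fin.sum_univ_two]
    rfl
  have hp := volume_preserving_finTwoArrow ℝ
  rw [e1, hp.measure_preimage hS.nullMeasurableSet]
  change (volume.prod volume) S = 0
  rw [Measure.measure_prod_null hS]
  refine Eventually.of_forall fun x => ?_
  have e2 : Prod.mk x ⁻¹' S = {y : ℝ | Real.cos (2 * Real.pi * y) =
      (4 - 2 * Real.cos (2 * Real.pi * x) - c) / 2} := by
    ext y
    simp only [Set.mem_ofPred_eq, Set.mem_preimage, hSd]
    constructor
    · intro h; linarith
    · intro h; linarith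
  change volume (Prod.mk x ⁻¹' S) = 0
  rw [e2]
  exact (slice_ctb _).measure_zero _

theorem at_lim (s : ℝ) (δ : ℕ → ℝ) (hδ : Tendsto δ atTop (𝓝[>] 0)) (hs : s ≠ 0) :
    Tendsto (fun n => Real.arctan (s / δ n)) atTop
      (𝓝 (if 0 < s then Real.pi / 2 else -(Real.pi / 2))) := by
  have h1 : Tendsto (fun n => (δ n)⁻¹) atTop atTop := tendsto_inv_nhdsGT_zero.comp hδ
  by_cases h : 0 < s
  · rw [if_pos h]
    have h2 : Tendsto (fun n => s / δ n) atTop atTop := by
      simp only [div_eq_mul_inv]
      exact h1.const_mul_atTop h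
    exact (tendsto_nhds_of_tendsto_nhdsWithin Real.tendsto_arctan_atTop).comp h2
  · rw [if_neg h]
    have h3 : s < 0 := lt_of_le_of_ne (not_lt.1 h) hs
    have h2 : Tendsto (fun n => s / δ n) atTop atBot := by
      simp only [div_eq_mul_inv]
      exact h1.const_mul_atTop_of_neg h3
    exact (tendsto_nhds_of_tendsto_nhdsWithin Real.tendsto_arctan_atBot).comp h2

theorem cube_ms : MeasurableSet (cube 2) := MeasurableSet.univ_pi fun _ => measurableSet_Icc

/-- the Brillouin zone between two energies -/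
def zone (E1 E2 : ℝ) : Set (Fin 2 → ℝ) := {k | k ∈ cube 2 ∧ E1 < ek k ∧ ek k < E2}

theorem zone_ms (E1 E2 : ℝ) : MeasurableSet (zone E1 E2) :=
  cube_ms.inter ((measurableSet_lt measurable_const ek_cont.measurable).inter
    (measurableSet_lt ek_cont.measurable measurable_const))

/-- the free density of states -/
theorem dosI (E1 E2 : ℝ) (h12 : E1 ≤ E2) (hO : Ok E1 E2) :
    ∫ u in Set.Icc E1 E2, (g2 u).im = Real.pi * volume.real (zone E1 E2) := by
  have hpi := Real.pi_pos
  obtain ⟨r, C, hb⟩ := bv2 E1 E2 h12 hO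
  have hr0 := hb.r0
  set δ : ℕ → ℝ := fun n => r / ((n : ℝ) + 1) with hδ
  have hδ0 : ∀ n, 0 < δ n := fun n => by rw [hδ]; positivity
  have hδr : ∀ n, δ n ≤ r := fun n => by
    rw [hδ]
    simp only
    rw [div_le_iff₀ (by positivity)]
    have : (0 : ℝ) ≤ n := Nat.cast_nonneg n
    nlinarith
  have hδlim : Tendsto δ atTop (𝓝[>] 0) := by
    rw [tendsto_nhdsWithin_iff]
    refine ⟨?_, Eventually.of_forall hδ0⟩
    have h1 := (tendsto_one_div_add_atTop_nhds_zero_nat (𝕜 := ℝ)).const_mul r
    rw [mul_zero] at h1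
    refine h1.congr fun n => ?_
    rw [hδ]
    ring
  have hrep : ∀ (n : ℕ) (u : ℝ), ∫ k in cube 2, po (δ n) (ek k - u) =
      (Lap (GG 2) ((u : ℂ) + (δ n : ℝ) * Complex.I)).im := by
    intro n u
    rw [GG_rep _ (by simpa using hδ0 n), po_im (fun _ => 1) continuous_const u (δ n) (hδ0 n)]
    simp only [one_mul]
  have hfin : volume (cube 2) < ⊤ := by rw [cube_vol]; exact ENNReal.one_lt_top
  haveI : IsFiniteMeasure (volume.restrict (cube 2)) := ⟨by
    rw [Measure.restrict_apply_univ]; exact hfin⟩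
  have hint : ∀ n, Integrable (fun p : ℝ × (Fin 2 → ℝ) => po (δ n) (ek p.2 - p.1))
      ((volume.restrict (Set.Icc E1 E2)).prod (volume.restrict (cube 2))) := by
    intro n
    have hjc : Continuous fun p : ℝ × (Fin 2 → ℝ) => po (δ n) (ek p.2 - p.1) :=
      (po_cont (δ n) (hδ0 n)).comp ((ek_cont.comp continuous_snd).sub continuous_fst)
    refine Integrable.mono' (integrable_const (1 / δ n)) hjc.aestronglyMeasurable
      (Eventually.of_forall fun p => ?_)
    have h0 := hδ0 n
    rw [Real.norm_eq_abs, abs_of_nonneg (po_nonneg _ _ h0)]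
    unfold po
    rw [div_le_div_iff₀ (by positivity) h0]
    nlinarith [sq_nonneg (ek p.2 - p.1)]
  have hdom : Tendsto (fun n => ∫ u in Set.Icc E1 E2, ∫ k in cube 2, po (δ n) (ek k - u)) atTop
      (𝓝 (∫ u in Set.Icc E1 E2, (g2 u).im)) := by
    refine tendsto_integral_of_dominated_convergence (fun _ => C) (fun n => ?_)
      (integrable_const _) (fun n => ?_) ?_
    · exact (hint n).integral_prod_left.aestronglyMeasurable
    · refine (ae_restrict_mem measurableSet_Icc).mono fun u hu => ?_
      rw [hrep, Real.norm_eq_abs]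
      refine (Complex.abs_im_le_norm _).trans ?_
      refine hb.bd _ ⟨by simpa using hδ0 n, by simpa using hδr n, ?_, ?_⟩
      · simp only [Complex.add_re, Complex.ofReal_re, Complex.mul_re, Complex.I_re, mul_zero,
          Complex.ofReal_im, Complex.I_im, mul_one, sub_self, add_zero]
        linarith [hu.1]
      · simp only [Complex.add_re, Complex.ofReal_re, Complex.mul_re, Complex.I_re, mul_zero,
          Complex.ofReal_im, Complex.I_im, mul_one, sub_self, add_zero]
        linarith [hu.2]
    · refine (ae_restrict_mem measurableSet_Icc).mono fun u hu => ?_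
      exact (g2_po u (hO.pt u hu.1 hu.2)).comp hδlim
  have hdom2 : Tendsto (fun n => ∫ u in Set.Icc E1 E2, ∫ k in cube 2, po (δ n) (ek k - u)) atTop
      (𝓝 (∫ k in cube 2, (zone E1 E2).indicator (fun _ => Real.pi) k)) := by
    have hswap : ∀ n, ∫ u in Set.Icc E1 E2, ∫ k in cube 2, po (δ n) (ek k - u) =
        ∫ k in cube 2, (Real.arctan ((ek k - E1) / δ n) - Real.arctan ((ek k - E2) / δ n)) := by
      intro n
      have hs := integral_integral_swap (f := fun (u : ℝ) (k : Fin 2 → ℝ) =>
        po (δ n) (ek k - u)) (μ := volume.restrict (Set.Icc E1 E2))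
        (ν := volume.restrict (cube 2)) (hint n)
      rw [hs]
      refine integral_congr_ae (Eventually.of_forall fun k => ?_)
      exact po_integral (δ n) (ek k) E1 E2 (hδ0 n) h12
    simp only [hswap]
    refine tendsto_integral_of_dominated_convergence (fun _ => Real.pi) (fun n => ?_)
      (integrable_const _) (fun n => ?_) ?_
    · refine Continuous.aestronglyMeasurable ?_
      exact (Real.continuous_arctan.comp ((ek_cont.sub continuous_const).div_const _)).sub
        (Real.continuous_arctan.comp ((ek_cont.sub continuous_const).div_const _))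
    · refine Eventually.of_forall fun k => ?_
      have h1 := Real.arctan_lt_pi_div_two ((ek k - E1) / δ n)
      have h2 := Real.neg_pi_div_two_lt_arctan ((ek k - E1) / δ n)
      have h3 := Real.arctan_lt_pi_div_two ((ek k - E2) / δ n)
      have h4 := Real.neg_pi_div_two_lt_arctan ((ek k - E2) / δ n)
      rw [Real.norm_eq_abs, abs_le]
      constructor <;> linarith
    · have hn1 : ∀ᵐ k : Fin 2 → ℝ ∂volume.restrict (cube 2), ek k ≠ E1 := by
        refine ae_restrict_of_ae ?_
        rw [ae_iff]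
        simpa using lev_null E1
      have hn2 : ∀ᵐ k : Fin 2 → ℝ ∂volume.restrict (cube 2), ek k ≠ E2 := by
        refine ae_restrict_of_ae ?_
        rw [ae_iff]
        simpa using lev_null E2
      filter_upwards [hn1, hn2, ae_restrict_mem cube_ms] with k hk1 hk2 hk
      have h1 := at_lim (ek k - E1) δ hδlim (sub_ne_zero.2 hk1)
      have h2 := at_lim (ek k - E2) δ hδlim (sub_ne_zero.2 hk2)
      have h3 := h1.sub h2
      have e3 : (if 0 < ek k - E1 then Real.pi / 2 else -(Real.pi / 2)) -
          (if 0 < ek k - E2 then Real.pi / 2 else -(Real.pi / 2)) =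
          (zone E1 E2).indicator (fun _ => Real.pi) k := by
        by_cases ha : E1 < ek k
        · by_cases hb' : ek k < E2
          · rw [Set.indicator_of_mem (show k ∈ zone E1 E2 from ⟨hk, ha, hb'⟩),
              if_pos (by linarith), if_neg (by linarith)]
            ring
          · rw [Set.indicator_of_notMem (show k ∉ zone E1 E2 from fun h => hb' h.2.2),
              if_pos (by linarith), if_pos (by
                have : E2 < ek k := lt_of_le_of_ne (not_lt.1 hb') (Ne.symm hk2)
                linarith)]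
            ring
        · rw [Set.indicator_of_notMem (show k ∉ zone E1 E2 from fun h => ha h.2.1),
              if_neg (by linarith), if_neg (by
                have : ek k < E1 := lt_of_le_of_ne (not_lt.1 ha) hk1
                linarith)]
          ring
      rw [e3] at h3
      exact h3
  have h3 := tendsto_nhds_unique hdom hdom2
  rw [h3, setIntegral_indicator (zone_ms E1 E2), setIntegral_const, smul_eq_mul, mul_comm]
  congr 2
  exact Set.inter_eq_right.2 fun k hk => hk.1

/-- the spectrum without the threshold `4` -/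
def Sx : Set ℝ := Set.Ioo 0 4 ∪ Set.Ioo 4 8

theorem Sx_ms : MeasurableSet Sx := measurableSet_Ioo.union measurableSet_Ioo

theorem Sx_ok {E : ℝ} (h : E ∈ Sx) : Ok E E := by
  rcases h with h | h
  · exact Or.inl ⟨h.1, h.2⟩
  · exact Or.inr ⟨h.1, h.2⟩

theorem zone_le (E1 E2 : ℝ) : volume.real (zone E1 E2) ≤ 1 := by
  have h1 : volume.real (zone E1 E2) ≤ volume.real (cube 2) :=
    measureReal_mono (fun k hk => hk.1) (by rw [cube_vol]; exact ENNReal.one_ne_top)
  refine h1.trans (le_of_eq ?_)
  rw [measureReal_def, cube_vol]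
  simp

theorem g2_int (E1 E2 : ℝ) (h12 : E1 ≤ E2) (hO : Ok E1 E2) :
    IntegrableOn (fun u => (g2 u).im) (Set.Icc E1 E2) := by
  obtain ⟨r, C, hb⟩ := bv2 E1 E2 h12 hO
  exact (Complex.continuous_im.comp_continuousOn hb.cg).integrableOn_Icc

theorem half_int (a b : ℝ) (hab : a + 2 ≤ b) (hO : ∀ x : ℝ, 0 < x → x ≤ 1 → Ok (a + x) (b - x)) :
    IntegrableOn (fun u => (g2 u).im) (Set.Ioo a b) := by
  have hpi := Real.pi_pos
  set x : ℕ → ℝ := fun n => 1 / ((n : ℝ) + 1) with hx
  have hx0 : ∀ n, 0 < x n := fun n => by rw [hx]; positivity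
  have hx1 : ∀ n, x n ≤ 1 := fun n => by
    rw [hx]
    simp only
    rw [div_le_one (by positivity)]
    have : (0 : ℝ) ≤ n := Nat.cast_nonneg n
    linarith
  have hxl : Tendsto x atTop (𝓝 0) := tendsto_one_div_add_atTop_nhds_zero_nat
  have h1 : IntegrableOn (fun u => (g2 u).im) (Set.Ioc a b) := by
    refine integrableOn_Ioc_of_intervalIntegral_norm_bounded (l := atTop) (I := Real.pi)
      (a := fun n => a + x n) (b := fun n => b - x n) (fun n => ?_) ?_ ?_
      (Eventually.of_forall fun n => ?_)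
    · exact (g2_int _ _ (by linarith [hx1 n]) (hO _ (hx0 n) (hx1 n))).mono_set
        Set.Ioc_subset_Icc_self
    · have := (tendsto_const_nhds (x := a)).add hxl
      rwa [add_zero] at this
    · have := (tendsto_const_nhds (x := b)).sub hxl
      rwa [sub_zero] at this
    · have h12 : a + x n ≤ b - x n := by linarith [hx1 n]
      have hok := hO _ (hx0 n) (hx1 n)
      have h2 : ∫ u in Set.Ioc (a + x n) (b - x n), ‖(g2 u).im‖ =
          ∫ u in Set.Icc (a + x n) (b - x n), (g2 u).im := by
        rw [integral_Icc_eq_integral_Ioc]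
        refine setIntegral_congr_fun measurableSet_Ioc fun u hu => ?_
        have := g2_pos u (hok.pt u hu.1.le hu.2)
        change ‖(g2 u).im‖ = (g2 u).im
        rw [Real.norm_eq_abs, abs_of_pos this]
      rw [h2, dosI _ _ h12 hok]
      have h3 := zone_le (a + x n) (b - x n)
      nlinarith
  exact h1.mono_set Set.Ioo_subset_Ioc_self

theorem dos_int2 : IntegrableOn (fun u => (g2 u).im) Sx := by
  refine IntegrableOn.union (half_int 0 4 (by norm_num) fun x h0 h1 => ?_)
    (half_int 4 8 (by norm_num) fun x h0 h1 => ?_)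
  · exact Or.inl ⟨by linarith, by linarith⟩
  · exact Or.inr ⟨by linarith, by linarith⟩

/-- the bulk -/
def Ib (x : ℝ) : Set ℝ := Set.Icc x (4 - x) ∪ Set.Icc (4 + x) (8 - x)

theorem Ib_ms (x : ℝ) : MeasurableSet (Ib x) := measurableSet_Icc.union measurableSet_Icc

theorem Ib_sub {x : ℝ} (hx : 0 < x) : Ib x ⊆ Sx := by
  rintro E (h | h)
  · exact Or.inl ⟨by linarith [h.1], by linarith [h.2]⟩
  · exact Or.inr ⟨by linarith [h.1], by linarith [h.2]⟩

theorem Ib_int (x : ℝ) (hx : 0 < x) (hx1 : x ≤ 1) : ∫ u in Ib x, (g2 u).im =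
    Real.pi * volume.real (zone x (4 - x) ∪ zone (4 + x) (8 - x)) := by
  have h1 : Ok x (4 - x) := Or.inl ⟨by linarith, by linarith⟩
  have h2 : Ok (4 + x) (8 - x) := Or.inr ⟨by linarith, by linarith⟩
  unfold Ib
  rw [setIntegral_union ?_ measurableSet_Icc (g2_int _ _ (by linarith) h1)
    (g2_int _ _ (by linarith) h2), dosI _ _ (by linarith) h1, dosI _ _ (by linarith) h2,
    measureReal_union ?_ (zone_ms _ _) ?_ ?_]
  · ring
  · rw [Set.disjoint_left]
    rintro k ⟨-, -, hk⟩ ⟨-, hk', -⟩
    linarith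
  · exact ne_top_of_le_ne_top (by rw [cube_vol]; exact ENNReal.one_ne_top)
      (measure_mono (s := zone x (4 - x)) (t := cube 2) fun k hk => hk.1)
  · exact ne_top_of_le_ne_top (by rw [cube_vol]; exact ENNReal.one_ne_top)
      (measure_mono (s := zone (4 + x) (8 - x)) (t := cube 2) fun k hk => hk.1)
  · rw [Set.disjoint_left]
    rintro k ⟨-, hk⟩ ⟨hk', -⟩
    linarith

theorem ek2_range (k : Fin 2 → ℝ) : 0 ≤ ek k ∧ ek k ≤ 8 := by
  unfold ek
  rw [Fin.sum_univ_two]
  have h1 := Real.neg_one_le_cos (2 * Real.pi * k 0)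
  have h2 := Real.cos_le_one (2 * Real.pi * k 0)
  have h3 := Real.neg_one_le_cos (2 * Real.pi * k 1)
  have h4 := Real.cos_le_one (2 * Real.pi * k 1)
  constructor <;> linarith

theorem Ib_lim : Tendsto (fun n : ℕ => ∫ u in Ib (1 / ((n : ℝ) + 1)), (g2 u).im) atTop
    (𝓝 Real.pi) := by
  set x : ℕ → ℝ := fun n => 1 / ((n : ℝ) + 1) with hx
  have hx0 : ∀ n, 0 < x n := fun n => by rw [hx]; positivity
  have hx1 : ∀ n, x n ≤ 1 := fun n => by
    rw [hx]
    simp only
    rw [div_le_one (by positivity)]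
    have : (0 : ℝ) ≤ n := Nat.cast_nonneg n
    linarith
  have hanti : ∀ m n : ℕ, m ≤ n → x n ≤ x m := fun m n hmn => by
    rw [hx]
    simp only
    apply one_div_le_one_div_of_le (by positivity)
    have : (m : ℝ) ≤ n := by exact_mod_cast hmn
    linarith
  set A : ℕ → Set (Fin 2 → ℝ) := fun n => zone (x n) (4 - x n) ∪ zone (4 + x n) (8 - x n) with hA
  have hmono : Monotone A := by
    intro m n hmn k hk
    have h1 := hanti m n hmn
    rcases hk with ⟨h2, h3, h4⟩ | ⟨h2, h3, h4⟩
    · exact Or.inl ⟨h2, by linarith, by linarith⟩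
    · exact Or.inr ⟨h2, by linarith, by linarith⟩
  have hsub : cube 2 ⊆ (⋃ n, A n) ∪ ({k : Fin 2 → ℝ | ek k = 0} ∪ ({k | ek k = 4} ∪
      {k | ek k = 8})) := by
    intro k hk
    by_cases h0 : ek k = 0
    · exact Or.inr (Or.inl h0)
    by_cases h4 : ek k = 4
    · exact Or.inr (Or.inr (Or.inl h4))
    by_cases h8 : ek k = 8
    · exact Or.inr (Or.inr (Or.inr h8))
    left
    have hr := ek2_range k
    have h0' : 0 < ek k := lt_of_le_of_ne hr.1 (Ne.symm h0)
    have h8' : ek k < 8 := lt_of_le_of_ne hr.2 h8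
    rw [Set.mem_iUnion]
    rcases lt_or_gt_of_ne h4 with h4' | h4'
    · obtain ⟨n, hn⟩ := exists_nat_one_div_lt (show 0 < min (ek k) (4 - ek k) by
        apply lt_min <;> linarith)
      have h6 := lt_min_iff.1 hn
      exact ⟨n, Or.inl ⟨hk, h6.1, by have := h6.2; rw [hx]; simp only; linarith⟩⟩
    · obtain ⟨n, hn⟩ := exists_nat_one_div_lt (show 0 < min (ek k - 4) (8 - ek k) by
        apply lt_min <;> linarith)
      have h6 := lt_min_iff.1 hn
      exact ⟨n, Or.inr ⟨hk, by have := h6.1; rw [hx]; simp only; linarith,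
        by have := h6.2; rw [hx]; simp only; linarith⟩⟩
  have hnull : volume ({k : Fin 2 → ℝ | ek k = 0} ∪ ({k | ek k = 4} ∪ {k | ek k = 8})) = 0 := by
    rw [measure_union_null_iff, measure_union_null_iff]
    exact ⟨lev_null 0, lev_null 4, lev_null 8⟩
  have hone : volume (⋃ n, A n) = 1 := by
    apply le_antisymm
    · rw [← cube_vol (d := 2)]
      refine measure_mono (Set.iUnion_subset fun n k hk => ?_)
      rcases hk with ⟨h2, -⟩ | ⟨h2, -⟩ <;> exact h2
    · rw [← cube_vol (d := 2)]
      refine (measure_mono hsub).trans ((measure_union_le _ _).trans ?_)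
      rw [hnull, add_zero]
  have hlim := tendsto_measure_iUnion_atTop (μ := volume) hmono
  rw [hone] at hlim
  have hlim2 : Tendsto (fun n => volume.real (A n)) atTop (𝓝 1) := by
    have := (ENNReal.tendsto_toReal ENNReal.one_ne_top).comp hlim
    rw [ENNReal.toReal_one] at this
    exact this
  have h3 := hlim2.const_mul Real.pi
  rw [mul_one] at h3
  refine h3.congr fun n => ?_
  exact (Ib_int (x n) (hx0 n) (hx1 n)).symm

theorem Ib_union : (⋃ n : ℕ, Ib (1 / ((n : ℝ) + 1))) = Sx := by
  ext E
  rw [Set.mem_iUnion]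
  constructor
  · rintro ⟨n, hn⟩
    exact Ib_sub (by positivity) hn
  · rintro (h | h)
    · obtain ⟨n, hn⟩ := exists_nat_one_div_lt (show 0 < min E (4 - E) by
        apply lt_min <;> linarith [h.1, h.2])
      have h6 := lt_min_iff.1 hn
      exact ⟨n, Or.inl ⟨h6.1.le, by linarith [h6.2]⟩⟩
    · obtain ⟨n, hn⟩ := exists_nat_one_div_lt (show 0 < min (E - 4) (8 - E) by
        apply lt_min <;> linarith [h.1, h.2])
      have h6 := lt_min_iff.1 hn
      exact ⟨n, Or.inr ⟨by linarith [h6.1], by linarith [h6.2]⟩⟩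

/-- the total mass -/
theorem dos_one2 : ∫ E in Sx, (g2 E).im = Real.pi := by
  have hmono : Monotone fun n : ℕ => Ib (1 / ((n : ℝ) + 1)) := by
    intro m n hmn E hE
    have h1 : 1 / ((n : ℝ) + 1) ≤ 1 / ((m : ℝ) + 1) := by
      apply one_div_le_one_div_of_le (by positivity)
      have : (m : ℝ) ≤ n := by exact_mod_cast hmn
      linarith
    rcases hE with h | h
    · exact Or.inl ⟨by linarith [h.1], by linarith [h.2]⟩
    · exact Or.inr ⟨by linarith [h.1], by linarith [h.2]⟩
  have h1 := tendsto_setIntegral_of_monotone (μ := volume) (f := fun u => (g2 u).im)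
    (fun n : ℕ => Ib_ms (1 / ((n : ℝ) + 1))) hmono (by rw [Ib_union]; exact dos_int2)
  rw [Ib_union] at h1
  exact tendsto_nhds_unique h1 Ib_lim

/-- the bulk carries the mass -/
theorem dos_bulk (ε : ℝ) (hε : 0 < ε) : ∃ x : ℝ, 0 < x ∧ x ≤ 1 ∧
    Real.pi - ε ≤ ∫ u in Ib x, (g2 u).im := by
  obtain ⟨n, hn⟩ := (Ib_lim.eventually (lt_mem_nhds (show Real.pi - ε < Real.pi by
    linarith))).exists
  refine ⟨1 / ((n : ℝ) + 1), by positivity, ?_, hn.le⟩
  rw [div_le_one (by positivity)]
  have : (0 : ℝ) ≤ n := Nat.cast_nonneg n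
  linarith

end Pool.Agent.Zk71.S2
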