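import Pool.Agent.Zk11.QQ.Qf
import Pool.Agent.Zk71.D2.GenA

/-! Quantum diffusion in two dimensions in a fixed realization of the disorder. -/

set_option autoImplicit false
set_option linter.unusedSectionVars false

open scoped BigOperators Topology ENNReal
open MeasureTheory Filter

namespace Pool.Agent.Zk71.S2

open Pool.Agent.Zk11.QD Pool.Agent.Zk11.QQ
open Pool.Agent.Zk71.D2 (g2 Ok bv2 gen2 g2_pos h2_pos)

theorem g2_bd (E1 E2 : ℝ) (hE12 : E1 ≤ E2) (hO : Ok E1 E2) :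
    ∃ C0 : ℝ, 0 ≤ C0 ∧ ∀ E : ℝ, E1 ≤ E → E ≤ E2 → (g2 E).im ≤ C0 := by
  obtain ⟨r, C, hb⟩ := bv2 E1 E2 hE12 hO
  obtain ⟨M, hM⟩ := isCompact_Icc.exists_bound_of_continuousOn hb.cg
  refine ⟨|M|, abs_nonneg _, fun E h1 h2' => ?_⟩
  exact ((le_abs_self _).trans (Complex.abs_im_le_norm _)).trans
    ((hM E ⟨h1, h2'⟩).trans (le_abs_self M))

set_option maxHeartbeats 2000000 in
/-- **Quenched quantum diffusion.** -/
theorem quench2 (E1 E2 : ℝ) (hE12 : E1 ≤ E2) (hO : Ok E1 E2) (b v0 : ℝ)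
    (hv0 : 0 < v0) (κ : ℝ) (hκ0 : 0 < κ) (hκ1 : κ < 1 / 3) (β γ : ℝ) (hγ : 0 < γ)
    (hβ : 4 + 3 * κ + 2 * γ < β) (R : ℝ) (ε : ℝ) (hε : 0 < ε) :
    ∃ δ : ℝ, 0 < δ ∧ ∀ (μ : Measure ℝ) [IsProbabilityMeasure μ], (∀ᵐ s ∂μ, |s| ≤ b) →
      ∀ V : ℝ, V = ∫ s, (s - ∫ t, t ∂μ) ^ 2 ∂μ → v0 ≤ V → ∀ lam : ℝ, 0 < lam → lam < δ →
      ∀ 𝓑 : Finset (Finset (Zd 2)), (𝓑.card : ℝ) ≤ Real.exp (lam ^ (-γ)) →
      (∀ B ∈ 𝓑, lam ^ (-β) ≤ (B.card : ℝ)) →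
      ∃ Good : Set (Zd 2 → ℝ), MeasurableSet Good ∧
        1 - Real.exp (-lam ^ (-γ)) ≤ (PZ 2 μ).real Good ∧
        ∀ ω ∈ Good, ∀ B ∈ 𝓑, ∀ E η : ℝ, E1 ≤ E → E ≤ E2 → lam ^ (2 + κ) ≤ η →
          η ≤ δ * lam ^ 2 → ∀ P : Fin 2 → ℝ, (∀ j, |P j| ≤ R) →
          ‖FZ lam ((E : ℂ) + η * Complex.I) (fun j => lam * Real.sqrt η * P j) B ω -
            (((g2 E).im / (1 + (D2.h2 E).im / (4 * (g2 E).im ^ 2 * V) *
              ∑ j, P j ^ 2) : ℝ) : ℂ)‖ ≤ ε := by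
  classical
  set b' : ℝ := |b| + 1 with hb'
  have hb'0 : 0 < b' := by have := abs_nonneg b; linarith
  set R' : ℝ := |R| with hR'
  have hR'0 : 0 ≤ R' := abs_nonneg R
  set ε₁ : ℝ := min ε 1 / 4 with hε₁
  have hm : 0 < min ε 1 := lt_min hε one_pos
  have hε₁0 : 0 < ε₁ := by rw [hε₁]; linarith
  have hε₁1 : ε₁ ≤ 1 / 4 := by
    have := min_le_right ε 1
    rw [hε₁]
    linarith
  have hε₁ε : 4 * ε₁ ≤ ε := by
    have := min_le_left ε 1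
    rw [hε₁]
    linarith
  obtain ⟨C0, hC00, hg0⟩ := g2_bd E1 E2 hE12 hO
  set m0 : ℝ := 1 / (C0 + 3) with hm0
  have hm00 : 0 < m0 := by positivity
  have hm01 : m0 ≤ 1 := by
    rw [hm0, div_le_one (by linarith)]
    linarith
  have hm0i : 1 / m0 - 1 = C0 + 2 := by
    rw [hm0, one_div_one_div]
    ring
  set s : ℝ := ε₁ * m0 ^ 2 / 24 with hs
  have hs0 : 0 < s := by positivity
  have hs1 : s ≤ m0 / 2 := by
    have h1 : m0 ^ 2 ≤ m0 := by nlinarith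
    have h2 : ε₁ * m0 ^ 2 ≤ 1 * m0 := mul_le_mul (by linarith) h1 (by positivity) zero_le_one
    rw [hs]
    linarith
  set g' : ℝ := (β - 4 - 3 * κ) / 2 with hg'
  have hgg : γ < g' := by rw [hg']; linarith
  have hg'0 : 0 < g' := by linarith
  set c2 : ℝ := s / (24 * b') with hc2
  have hc20 : 0 < c2 := by positivity
  set c3 : ℝ := ε₁ / (32 * (2 + 2)) with hc3
  have hc30 : 0 < c3 := by positivity
  have hc31 : c3 ≤ 1 / 8 := by
    rw [hc3, div_le_iff₀ (by positivity)]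
    nlinarith
  obtain ⟨δ₁, hδ₁, hfin⟩ := gen2 E1 E2 hE12 hO b v0 hv0 κ hκ0 hκ1 R' ε₁ hε₁0
  -- small parameters
  set Cc : ℝ := ((2 * (4 * 2 + 2) + 3) / c3) ^ (2 + 2) with hCc
  set Nn : ℝ := 9 * (2 + 2) with hNn
  have hev := (tot_exp Cc Nn c2 γ g' hc20 hγ hgg).and
    (small_exp (120 / m0) 3 c2 g' (ε₁ / 2) hc20 hg'0 (by positivity))
  obtain ⟨δ₂, hδ₂, hsub⟩ := mem_nhdsGT_iff_exists_Ioo_subset.1 hev
  set δ : ℝ := min (min δ₁ δ₂) (min (1 / 2) (1 / (R' + 1))) with hδ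
  have hδ₂0 : 0 < δ₂ := hδ₂
  have hδ0 : 0 < δ := lt_min (lt_min hδ₁ hδ₂0) (lt_min (by norm_num) (by positivity))
  have d1 : δ ≤ δ₁ := (min_le_left _ _).trans (min_le_left _ _)
  have d2 : δ ≤ δ₂ := (min_le_left _ _).trans (min_le_right _ _)
  have d3 : δ ≤ 1 / 2 := (min_le_right _ _).trans (min_le_left _ _)
  have d4 : δ ≤ 1 / (R' + 1) := (min_le_right _ _).trans (min_le_right _ _)
  refine ⟨δ, hδ0, ?_⟩
  intro μ _ hμb V hV hVv lam hl0 hl1 𝓑 h𝓑 hcard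
  obtain ⟨htot, hsm⟩ := hsub ⟨hl0, lt_of_lt_of_le hl1 d2⟩
  have hμB : ∀ᵐ s ∂μ, |s| ≤ b' := hμb.mono fun s hs => hs.trans (by
    have := le_abs_self b
    linarith)
  have hlam1 : lam ≤ 1 := by linarith
  set ρ : ℝ := c3 * lam ^ 9 with hρ
  have hρ0 : 0 < ρ := by positivity
  have hl9 : lam ^ 9 ≤ lam ^ 3 := pow_le_pow_of_le_one hl0.le hlam1 (by norm_num)
  have hρ3 : ρ ≤ lam ^ 3 / 8 := by
    calc ρ ≤ 1 / 8 * lam ^ 3 := mul_le_mul hc31 hl9 (by positivity) (by norm_num)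
      _ = _ := by ring
  have hl3 : lam ^ 3 ≤ 1 := pow_le_one₀ hl0.le hlam1
  have hρ1 : ρ ≤ 1 := by linarith
  have hlk3 : lam ^ 3 ≤ lam ^ (2 + κ) := by
    rw [← Real.rpow_natCast]
    exact Real.rpow_le_rpow_of_exponent_ge hl0 hlam1 (by push_cast; linarith)
  set K : ℕ := ⌈(4 * (2 : ℝ) + 2) / ρ⌉₊ with hK
  have hKl : (4 * (2 : ℝ) + 2) / ρ ≤ K := Nat.le_ceil _
  set I0 : Finset ℤ := Finset.Icc (-(K : ℤ)) K with hI0
  set J : Finset (Finset (Zd 2) × ℤ × ℤ × (Fin 2 → ℤ)) :=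
    𝓑 ×ˢ (I0 ×ˢ (I0 ×ˢ Fintype.piFinset fun _ : Fin 2 => I0)) with hJ
  have hI0c : I0.card = 2 * K + 1 := by
    rw [hI0, Int.card_Icc]
    omega
  have hJc : (J.card : ℝ) ≤ Real.exp (lam ^ (-γ)) * (Cc * lam ^ (-Nn)) := by
    have h1 : (I0.card : ℝ) ≤ (2 * (4 * 2 + 2) + 3) / ρ := by
      rw [hI0c]
      exact card_bd K (4 * 2 + 2) ρ hρ0 hρ1 (by positivity) hK
    have h2 : J.card = 𝓑.card * I0.card ^ (2 + 2) := by
      rw [hJ, Finset.card_product, Finset.card_product, Finset.card_product,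
        Fintype.card_piFinset_const]
      ring
    rw [h2]
    push_cast
    have h3 : ((I0.card : ℝ)) ^ (2 + 2) ≤ Cc * lam ^ (-Nn) := by
      calc ((I0.card : ℝ)) ^ (2 + 2) ≤ ((2 * (4 * 2 + 2) + 3) / ρ) ^ (2 + 2) :=
            pow_le_pow_left₀ (Nat.cast_nonneg _) h1 _
        _ = Cc * (lam ^ 9)⁻¹ ^ (2 + 2) := by
            rw [hCc, ← mul_pow, hρ]
            congr 1
            field_simp
        _ = Cc * lam ^ (-Nn) := by
            congr 1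
            rw [Real.rpow_neg hl0.le, inv_pow, ← pow_mul, hNn, ← Real.rpow_natCast]
            congr 2
            push_cast
            ring
    exact mul_le_mul h𝓑 h3 (by positivity) (Real.exp_pos _).le
  have hp0 : 0 ≤ 30 * Real.exp (-(c2 * lam ^ (-g'))) := by positivity
  obtain ⟨Good, hGm, hGp, hGood⟩ := union_bd (PZ 2 μ) J
    (fun i => Bd μ lam κ m0 s c2 g' i.1 (zk ρ i.2.1 i.2.2.1) (fun j => ρ * (i.2.2.2 j : ℝ)))
    (30 * Real.exp (-(c2 * lam ^ (-g')))) (Real.exp (-lam ^ (-γ))) hp0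
    (fun i hi => by
      have hiB : i.1 ∈ 𝓑 := (Finset.mem_product.1 hi).1
      exact Bd_le μ b' hb'0 hμB lam κ m0 s β hl0 hm00 hm01 hs0 hs1 i.1 (hcard _ hiB) _ _)
    ((mul_le_mul_of_nonneg_right hJc hp0).trans htot)
  refine ⟨Good, hGm, hGp, ?_⟩
  intro ω hω B hB E η hEa hEb hη0 hη1 P hP
  have hBn : B.Nonempty := by
    have h1 := lt_of_lt_of_le (Real.rpow_pos_of_pos hl0 (-β)) (hcard B hB)
    rw [← Finset.card_pos]
    exact_mod_cast h1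
  have hη3 : lam ^ 3 ≤ η := hlk3.trans hη0
  have hηp : 0 < η := lt_of_lt_of_le (by positivity) hη3
  have hηδ : η ≤ δ₁ * lam ^ 2 := hη1.trans (mul_le_mul_of_nonneg_right d1 (by positivity))
  have hηh : η ≤ 1 / 2 := by
    have h1 : lam ^ 2 ≤ 1 := pow_le_one₀ hl0.le hlam1
    calc η ≤ δ * lam ^ 2 := hη1
      _ ≤ 1 / 2 * 1 := mul_le_mul d3 h1 (by positivity) (by norm_num)
      _ = _ := by norm_num
  set z : ℂ := (E : ℂ) + η * Complex.I with hz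
  have hzre : z.re = E := by simp [hz]
  have hzim : z.im = η := by simp [hz]
  set θ : Fin 2 → ℝ := fun j => lam * Real.sqrt η * P j with hθ
  set k0 : ℤ := ⌊E / ρ⌋ with hk0
  set k1 : ℤ := ⌊η / ρ⌋ with hk1
  set k2 : Fin 2 → ℤ := fun j => ⌊θ j / ρ⌋ with hk2
  set z' : ℂ := zk ρ k0 k1 with hz'
  set θ' : Fin 2 → ℝ := fun j => ρ * (k2 j : ℝ) with hθ'
  have hP' : ∀ j, |P j| ≤ R' := fun j => (hP j).trans (le_abs_self R)
  have hθ1 : ∀ j, |θ j| ≤ 1 := by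
    intro j
    have h1 : Real.sqrt η ≤ 1 := by
      have h5 := Real.sqrt_le_sqrt (show η ≤ 1 by linarith)
      rwa [Real.sqrt_one] at h5
    have h2 : lam * (R' + 1) ≤ 1 := by
      have h3 : lam ≤ 1 / (R' + 1) := hl1.le.trans d4
      rw [le_div_iff₀ (by positivity)] at h3
      exact h3
    rw [hθ]
    simp only
    rw [abs_mul, abs_mul, abs_of_pos hl0, abs_of_nonneg (Real.sqrt_nonneg _)]
    calc lam * Real.sqrt η * |P j| ≤ lam * 1 * R' := by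
          have := hP' j
          gcongr
      _ ≤ 1 := by nlinarith
  have hEabs : |E| ≤ 4 * 2 := by
    have hp1 := hO.pos
    have hp2 := hO.lt8
    rw [abs_le]
    constructor <;> linarith
  have hmem : (B, k0, k1, k2) ∈ J := by
    rw [hJ, Finset.mem_product, Finset.mem_product, Finset.mem_product, Fintype.mem_piFinset]
    refine ⟨hB, floor_mem E ρ (4 * 2 + 2) K hρ0 (by linarith) hKl,
      floor_mem η ρ (4 * 2 + 2) K hρ0 (by rw [abs_of_pos hηp]; linarith) hKl, fun j =>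
      floor_mem (θ j) ρ (4 * 2 + 2) K hρ0 ((hθ1 j).trans (by linarith)) hKl⟩
  have hnb := hGood ω hω _ hmem
  have hre : |z.re - z'.re| ≤ ρ := by
    rw [hz', zk_re, hzre]
    exact grid E ρ hρ0
  have him : |z.im - z'.im| ≤ ρ := by
    rw [hz', zk_im, hzim]
    exact grid η ρ hρ0
  have hth : ∀ j, |θ j - θ' j| ≤ ρ := fun j => grid (θ j) ρ hρ0
  have hz'l : lam ^ (2 + κ) / 2 ≤ z'.im := by
    have h1 := (abs_le.1 him).2
    rw [hzim] at h1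
    linarith
  have hz'3 : lam ^ 3 / 2 ≤ z'.im := by linarith
  have hz'1 : z'.im ≤ 1 := by
    have h1 := (abs_le.1 him).1
    rw [hzim] at h1
    linarith
  have hz'0 : 0 < z'.im := lt_of_lt_of_le (by positivity) hz'3
  have hz0 : 0 < z.im := by rw [hzim]; exact hηp
  have hLip : ∀ θ₁ θ₂ : Fin 2 → ℝ, (∀ j, |θ₁ j - θ₂ j| ≤ ρ) → ∀ ω,
      ‖Ph lam z θ₁ ω - Ph lam z' θ₂ ω‖ ≤ ε₁ := by
    intro θ₁ θ₂ h12 ω
    have h1 := Ph_lip lam z z' (lam ^ 3 / 2) (by positivity) (by rw [hzim]; linarith) hz'3 hz'1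
      (by linarith) θ₁ θ₂ ρ hρ0.le hre him h12 ω
    refine h1.trans (le_of_eq ?_)
    rw [hρ, hc3]
    have : (2 : ℝ) + 2 ≠ 0 := by norm_num
    field_simp
    ring
  -- the mean at the point
  have hmean : ‖∫ ω, Ph lam z θ ω ∂(PZ 2 μ) - (((g2 E).im / (1 + (D2.h2 E).im /
      (4 * (g2 E).im ^ 2 * V) * ∑ j, P j ^ 2) : ℝ) : ℂ)‖ ≤ ε₁ := by
    have h1 := hfin μ hμb V hV hVv E hEa hEb P hP' lam η hl0 (lt_of_lt_of_le hl1 d1) hη0 hηδ
      (fun ω => Gc lam z ω) (Eventually.of_forall fun ω => Gc_isG lam z hz0 ω)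
    rw [mean_eq μ lam z hz0 θ, hzim]
    exact h1
  have hmean0 : (∫ ω, Ph (d := 2) lam z 0 ω ∂(PZ 2 μ)).re ≤ C0 + ε₁ := by
    have h1 := hfin μ hμb V hV hVv E hEa hEb (fun _ => 0) (fun j => by simpa using hR'0) lam η hl0
      (lt_of_lt_of_le hl1 d1) hη0 hηδ
      (fun ω => Gc lam z ω) (Eventually.of_forall fun ω => Gc_isG lam z hz0 ω)
    have e1 : ∫ ω, Ph (d := 2) lam z 0 ω ∂(PZ 2 μ) = (η : ℂ) * ∑' y : Zd 2,
        Complex.exp (((∑ j, lam * Real.sqrt η * (fun _ : Fin 2 => (0 : ℝ)) j * y j : ℝ) : ℂ) *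
          Complex.I) * ((∫ ω, ‖Gc lam z ω y‖ ^ 2 ∂(PZ 2 μ) : ℝ) : ℂ) := by
      rw [mean_eq μ lam z hz0 0, hzim]
      simp
    rw [← e1] at h1
    have h2 := (Complex.abs_re_le_norm _).trans h1
    rw [Complex.sub_re, Complex.ofReal_re] at h2
    have e2 : (g2 E).im / (1 + (D2.h2 E).im / (4 * (g2 E).im ^ 2 * V) *
        ∑ j : Fin 2, (fun _ : Fin 2 => (0 : ℝ)) j ^ 2) = (g2 E).im := by simp
    rw [e2] at h2
    have h3 := (abs_le.1 h2).2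
    have h4 := hg0 E hEa hEb
    linarith
  have hcd : Cd μ 2 lam κ m0 z' := by
    refine ⟨hz'l, hz'1, ?_⟩
    have h1 := mean_lip μ lam z z' hz0 hz'0 b' hμB 0 0 ε₁ (hLip 0 0 (fun j => by simpa using hρ0.le))
    have h2 := (Complex.abs_re_le_norm _).trans h1
    rw [Complex.sub_re] at h2
    have h3 := (abs_le.1 h2).1
    rw [hm0i]
    linarith
  have hdev : ‖FZ lam z' θ' B ω - ∫ ω, Ph lam z' θ' ω ∂(PZ 2 μ)‖ ≤
      2 * (6 * s / m0 ^ 2) + 2 * (1 / (z'.im * m0)) * (30 * Real.exp (-(c2 * lam ^ (-g')))) := by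
    by_contra h
    exact hnb ⟨hcd, not_le.1 h⟩
  have hdev2 : 2 * (6 * s / m0 ^ 2) + 2 * (1 / (z'.im * m0)) *
      (30 * Real.exp (-(c2 * lam ^ (-g')))) ≤ ε₁ := by
    have h1 : 2 * (6 * s / m0 ^ 2) = ε₁ / 2 := by
      rw [hs]
      field_simp
      ring
    have h2 : 2 * (1 / (z'.im * m0)) * (30 * Real.exp (-(c2 * lam ^ (-g')))) ≤ ε₁ / 2 := by
      refine le_trans ?_ hsm
      have h3 : 1 / (z'.im * m0) ≤ 1 / (lam ^ 3 / 2 * m0) :=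
        one_div_le_one_div_of_le (by positivity) (mul_le_mul_of_nonneg_right hz'3 hm00.le)
      have h4 : lam ^ (-(3 : ℝ)) = 1 / lam ^ 3 := by
        rw [Real.rpow_neg hl0.le, one_div]
        congr 1
        exact_mod_cast Real.rpow_natCast lam 3
      rw [h4]
      calc 2 * (1 / (z'.im * m0)) * (30 * Real.exp (-(c2 * lam ^ (-g')))) ≤
            2 * (1 / (lam ^ 3 / 2 * m0)) * (30 * Real.exp (-(c2 * lam ^ (-g')))) := by
            gcongr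
        _ = _ := by
            field_simp
            ring
    linarith
  have f1 := FZ_lip lam z z' θ θ' ε₁ (hLip θ θ' hth) B hBn ω
  have f3 := mean_lip μ lam z z' hz0 hz'0 b' hμB θ θ' ε₁ (hLip θ θ' hth)
  rw [norm_sub_rev] at f3
  have t1 := norm_sub_le_norm_sub_add_norm_sub (FZ lam z θ B ω) (FZ lam z' θ' B ω)
    (((g2 E).im / (1 + (D2.h2 E).im / (4 * (g2 E).im ^ 2 * V) * ∑ j, P j ^ 2) : ℝ) : ℂ)
  have t2 := norm_sub_le_norm_sub_add_norm_sub (FZ lam z' θ' B ω)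
    (∫ ω, Ph lam z' θ' ω ∂(PZ 2 μ))
    (((g2 E).im / (1 + (D2.h2 E).im / (4 * (g2 E).im ^ 2 * V) * ∑ j, P j ^ 2) : ℝ) : ℂ)
  have t3 := norm_sub_le_norm_sub_add_norm_sub (∫ ω, Ph lam z' θ' ω ∂(PZ 2 μ))
    (∫ ω, Ph lam z θ ω ∂(PZ 2 μ))
    (((g2 E).im / (1 + (D2.h2 E).im / (4 * (g2 E).im ^ 2 * V) * ∑ j, P j ^ 2) : ℝ) : ℂ)
  linarith

end Pool.Agent.Zk71.S2
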