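import Pool.Agent.Zk71.S2.Abel
import Pool.Agent.Zk71.S2.Qn
import Pool.Agent.Zk93.TE.Fin

/-! Quantum diffusion in two dimensions for the Schrödinger evolution. -/

set_option autoImplicit false
set_option linter.unusedSectionVars false

open scoped BigOperators Topology
open MeasureTheory Filter

namespace Pool.Agent.Zk71.S2

open Pool.Agent.Zk11.QD hiding ex ex_norm
open Pool.Agent.Zk93.TE
open Pool.Agent.Zk11.QQ (Gc Gc_isG sh ex ex_norm Ph FZ)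

theorem Mt2_lapc {V : ℝ} (hV : 0 < V) {c : ℝ} (hc : 0 ≤ c) (s : ℝ) (hs : 0 < s) :
    ∫ τ in Set.Ioi (0 : ℝ), ((s * Real.exp (-(s * τ)) : ℝ) : ℂ) *
      ((Real.pi⁻¹ * Mt2 V c τ : ℝ) : ℂ) = (Real.pi : ℂ)⁻¹ * ((Mf2 V (2 * c / s) : ℝ) : ℂ) := by
  have h1 := (Mt2_lap hV hc s hs).2
  rw [← h1]
  have e1 : ∀ τ : ℝ, ((s * Real.exp (-(s * τ)) : ℝ) : ℂ) * ((Real.pi⁻¹ * Mt2 V c τ : ℝ) : ℂ) =
      (Real.pi : ℂ)⁻¹ * ((s * Real.exp (-(s * τ)) * Mt2 V c τ : ℝ) : ℂ) := by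
    intro τ
    push_cast
    ring
  simp only [e1]
  rw [integral_const_mul, integral_complex_ofReal]

/-- the difference between the profile and its limit -/
noncomputable def Df2 (V c : ℝ) (θ : Fin 2 → ℝ) (B : Finset (Zd 2)) (ψ : Zd 2 → ℝ → Zd 2 → ℂ)
    (T τ : ℝ) : ℂ := SB θ B ψ (τ * T) - ((Real.pi⁻¹ * Mt2 V c τ : ℝ) : ℂ)

theorem Df2_ad {lam : ℝ} {ω : Zd 2 → ℝ} {ψ : Zd 2 → ℝ → Zd 2 → ℂ}
    (h : ∀ y, Ev lam ω y (ψ y)) {V : ℝ} (hV : 0 < V) {c : ℝ} (hc : 0 ≤ c) (θ : Fin 2 → ℝ)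
    (B : Finset (Zd 2)) (T : ℝ) : Ad (Df2 V c θ B ψ T) := by
  have hpi := Real.pi_pos
  constructor
  · unfold Df2
    refine AEStronglyMeasurable.sub ?_ ?_
    · exact ((SB_meas h θ B).comp (measurable_id.mul_const T)).aestronglyMeasurable
    · exact (Complex.continuous_ofReal.comp_stronglyMeasurable
        (stronglyMeasurable_const.mul (Mt2_meas V c))).aestronglyMeasurable
  · intro τ hτ
    unfold Df2
    refine (norm_sub_le _ _).trans ?_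
    have h1 := SB_le h θ B (τ * T)
    have h2 := Mt2_bd hV hc τ hτ.le
    rw [Complex.norm_real, Real.norm_eq_abs, abs_of_nonneg (mul_nonneg (by positivity) h2.1)]
    have h3 : Real.pi⁻¹ * Mt2 V c τ ≤ 1 := by
      rw [inv_mul_le_iff₀ hpi, mul_one]
      exact h2.2
    linarith

theorem Df2_lap {lam b : ℝ} {ω : Zd 2 → ℝ} (hω : ∀ x, |ω x| ≤ b)
    {ψ : Zd 2 → ℝ → Zd 2 → ℂ} (h : ∀ y, Ev lam ω y (ψ y)) {V : ℝ} (hV : 0 < V) {c : ℝ}
    (hc : 0 ≤ c) (θ : Fin 2 → ℝ) (B : Finset (Zd 2)) (T : ℝ) (hT : 0 < T) (k : ℕ) (hk : 1 ≤ k) :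
    ‖∫ τ in Set.Ioi (0 : ℝ), ((Real.exp (-((k : ℝ) * τ)) : ℝ) : ℂ) * Df2 V c θ B ψ T τ‖ ≤
      Real.pi⁻¹ * ‖(∫ E : ℝ, FZ lam ((E : ℂ) + (((k : ℝ) / (2 * T) : ℝ) : ℂ) * Complex.I) θ B ω) -
        ((Mf2 V (2 * c / k) : ℝ) : ℂ)‖ := by
  have hk0 : (0 : ℝ) < k := by exact_mod_cast hk
  have hk1 : (1 : ℝ) ≤ k := by exact_mod_cast hk
  have hpi := Real.pi_pos
  have h1 := SB_lap hω h θ B T k hT hk0
  have h2 := Mt2_lapc hV hc k hk0
  have hAd := Df2_ad h hV hc θ B T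
  -- integrability of the two parts
  have i1 : IntegrableOn (fun τ : ℝ => (((k : ℝ) * Real.exp (-((k : ℝ) * τ)) : ℝ) : ℂ) *
      SB θ B ψ (τ * T)) (Set.Ioi 0) := by
    refine Integrable.mono' ((exp_int (k : ℝ) hk0).const_mul (k : ℝ)) ?_
      (Eventually.of_forall fun τ => ?_)
    · exact (Continuous.aestronglyMeasurable (by fun_prop)).mul
        ((SB_meas h θ B).comp (measurable_id.mul_const T)).aestronglyMeasurable
    · rw [norm_mul, Complex.norm_real, Real.norm_eq_abs, abs_of_nonneg (by positivity)]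
      exact mul_le_of_le_one_right (by positivity) (SB_le h θ B _)
  have i2 : IntegrableOn (fun τ : ℝ => (((k : ℝ) * Real.exp (-((k : ℝ) * τ)) : ℝ) : ℂ) *
      ((Real.pi⁻¹ * Mt2 V c τ : ℝ) : ℂ)) (Set.Ioi 0) := by
    have h3 := ((Mt2_lap hV hc (k : ℝ) hk0).1.const_mul Real.pi⁻¹).ofReal (𝕜 := ℂ)
    refine h3.congr (Eventually.of_forall fun τ => ?_)
    simp only
    rw [← Complex.ofReal_mul]
    have e : Real.pi⁻¹ * ((k : ℝ) * Real.exp (-((k : ℝ) * τ)) * Mt2 V c τ) =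
        (k : ℝ) * Real.exp (-((k : ℝ) * τ)) * (Real.pi⁻¹ * Mt2 V c τ) := by ring
    rw [← e]
    rfl
  have h4 : (k : ℂ) * ∫ τ in Set.Ioi (0 : ℝ), ((Real.exp (-((k : ℝ) * τ)) : ℝ) : ℂ) *
      Df2 V c θ B ψ T τ = (Real.pi : ℂ)⁻¹ *
        ((∫ E : ℝ, FZ lam ((E : ℂ) + (((k : ℝ) / (2 * T) : ℝ) : ℂ) * Complex.I) θ B ω) -
        ((Mf2 V (2 * c / k) : ℝ) : ℂ)) := by
    rw [mul_sub, ← h1, ← h2, ← integral_sub i1 i2, ← integral_const_mul]
    refine integral_congr_ae (Eventually.of_forall fun τ => ?_)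
    simp only
    unfold Df2
    push_cast
    ring
  have h5 := congrArg norm h4
  rw [norm_mul, norm_mul, Complex.norm_natCast, norm_inv, Complex.norm_real, Real.norm_eq_abs,
    abs_of_pos hpi] at h5
  rw [← h5]
  exact le_mul_of_one_le_left (norm_nonneg _) hk1

end Pool.Agent.Zk71.S2
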