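import Pool.Agent.Zk71.S2.Ann

/-! The evolution in two dimensions for the uniform law. -/

set_option autoImplicit false
set_option linter.unusedSectionVars false

open scoped BigOperators Topology
open MeasureTheory Filter

namespace Pool.Agent.Zk71.S2

open Pool.Agent.Zk11.QD hiding ex ex_norm
open Pool.Agent.Zk93.TE
open Pool.Agent.Zk11.QQ (Gc Gc_isG sh ex ex_norm Ph FZ sh_map sh_meas)
open Pool.Agent.Zk71.DR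

theorem af_val (c : ℝ) (hc : c ≠ 0) (ω : Zd 2 → ℝ) (x : Zd 2) : af1 2 c 0 hc ω x = ω x / c := by
  change (ω x - 0) / c = _
  rw [sub_zero]

theorem HZ_af (c : ℝ) (hc : c ≠ 0) (ω : Zd 2 → ℝ) (u : Zd 2 → ℂ) (x : Zd 2) :
    HZ c (af1 2 c 0 hc ω) u x = HZ 1 ω u x := by
  unfold HZ
  rw [af_val, one_mul]
  congr 3
  field_simp

theorem ev_af (c : ℝ) (hc : c ≠ 0) (ω : Zd 2 → ℝ) (y : Zd 2) (ψ : ℝ → Zd 2 → ℂ) :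
    Ev 1 ω y ψ ↔ Ev c (af1 2 c 0 hc ω) y ψ := by
  constructor
  · intro h
    refine ⟨h.init, h.mass, fun t x => ?_⟩
    rw [HZ_af]
    exact h.eq t x
  · intro h
    refine ⟨h.init, h.mass, fun t x => ?_⟩
    have h1 := h.eq t x
    rw [HZ_af] at h1
    exact h1

theorem map_af (c : ℝ) (hc0 : 0 < c) :
    (PZ 2 (unif c)).map (af1 2 c 0 hc0.ne') = PZ 2 (unif 1) := by
  have hpc := unif_prob c hc0
  have hmap1 : (unif c).map (af c 0 hc0.ne') = unif 1 := by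
    rw [← unif_scale c hc0]
    congr 1
    funext s
    change (s - 0) / c = s / c
    rw [sub_zero]
  have hp1 := unif_prob 1 one_pos
  have hmp : IsProbabilityMeasure ((unif c).map (af c 0 hc0.ne')) := by
    rw [hmap1]
    exact hp1
  have hmap := af1_map (d := 2) (unif c) c 0 hc0.ne'
  rw [hmap1] at hmap
  exact hmap

/-- fixed realization -/
theorem unifQ (κ : ℝ) (hκ0 : 0 < κ) (hκ1 : κ < 1 / 3)
    (β γ : ℝ) (hγ : 0 < γ) (hβ : 4 + 3 * κ + 2 * γ < β) (R : ℝ) (ε : ℝ) (hε : 0 < ε) :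
    ∃ δ : ℝ, 0 < δ ∧ ∀ c : ℝ, 0 < c → c < δ →
      ∀ 𝓑 : Finset (Finset (Zd 2)), (𝓑.card : ℝ) ≤ Real.exp (c ^ (-γ)) →
      (∀ B ∈ 𝓑, c ^ (-β) ≤ (B.card : ℝ)) →
      ∃ Good : Set (Zd 2 → ℝ), MeasurableSet Good ∧
        1 - Real.exp (-c ^ (-γ)) ≤ (PZ 2 (unif c)).real Good ∧
        (∀ ω ∈ Good, ∀ x, |ω x| ≤ c) ∧
        ∀ ω ∈ Good, ∀ ψ : Zd 2 → ℝ → Zd 2 → ℂ, (∀ y, Ev 1 ω y (ψ y)) →
          ∀ B ∈ 𝓑, ∀ T : ℝ, c ^ (-2 : ℝ) / δ ≤ T → T ≤ c ^ (-(2 + κ)) →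
          ∀ P : Fin 2 → ℝ, (∀ j, |P j| ≤ R) → ∀ a b : ℝ, 0 ≤ a → a ≤ b → b ≤ R →
          ‖∫ τ in a..b, Df2 (1 / 3) (∑ j, P j ^ 2) (fun j => c / Real.sqrt T * P j) B ψ T τ‖ ≤
            ε := by
  obtain ⟨δ, hδ, h⟩ := evo2 1 (1 / 3) (by norm_num) κ hκ0 hκ1 β γ hγ hβ R ε hε
  have hp1 := unif_prob 1 one_pos
  refine ⟨δ, hδ, fun c hc0 hc1 𝓑 h𝓑 hcard => ?_⟩
  obtain ⟨Good, hGm, hGp, hGb, hG⟩ := h (unif 1) (unif_bdd 1) (1 / 3) unif_var le_rfl c hc0 hc1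
    𝓑 h𝓑 hcard
  have hmeas : Measurable (af1 2 c 0 hc0.ne') := (af1 2 c 0 hc0.ne').measurable
  refine ⟨(af1 2 c 0 hc0.ne') ⁻¹' Good, hmeas hGm, ?_, ?_, ?_⟩
  · refine hGp.trans (le_of_eq ?_)
    rw [← map_af c hc0, measureReal_def, measureReal_def, Measure.map_apply hmeas hGm]
  · intro ω hω x
    have h1 := hGb _ hω x
    rw [af_val, abs_div, abs_of_pos hc0, div_le_one hc0] at h1
    exact h1
  · intro ω hω ψ hψ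
    exact hG _ hω ψ fun y => (ev_af c hc0.ne' ω y (ψ y)).1 (hψ y)

/-- the disorder average -/
theorem unifA (κ : ℝ) (hκ0 : 0 < κ) (hκ1 : κ < 1 / 3) (R : ℝ) (ε : ℝ) (hε : 0 < ε) :
    ∃ δ : ℝ, 0 < δ ∧ ∀ c : ℝ, 0 < c → c < δ →
      ∀ ψ : (Zd 2 → ℝ) → ℝ → Zd 2 → ℂ, (∀ᵐ ω ∂(PZ 2 (unif c)), Ev 1 ω 0 (ψ ω)) →
      (∀ t, Summable fun x => ∫ ω, ‖ψ ω t x‖ ^ 2 ∂(PZ 2 (unif c))) ∧
      ∀ T : ℝ, c ^ (-2 : ℝ) / δ ≤ T → T ≤ c ^ (-(2 + κ)) →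
      ∀ P : Fin 2 → ℝ, (∀ j, |P j| ≤ R) → ∀ a b : ℝ, 0 ≤ a → a ≤ b → b ≤ R →
      ‖∫ τ in a..b, ((∑' x : Zd 2, ex (fun j => c / Real.sqrt T * P j) x *
          ((∫ ω, ‖ψ ω (τ * T) x‖ ^ 2 ∂(PZ 2 (unif c)) : ℝ) : ℂ)) -
          ((Real.pi⁻¹ * Mt2 (1 / 3) (∑ j, P j ^ 2) τ : ℝ) : ℂ))‖ ≤ ε := by
  obtain ⟨δ, hδ, h⟩ := evoA2 1 (1 / 3) (by norm_num) κ hκ0 hκ1 R ε hε
  have hp1 := unif_prob 1 one_pos
  refine ⟨δ, hδ, fun c hc0 hc1 ψ hψ => ?_⟩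
  have hψ' : ∀ᵐ ω ∂(PZ 2 (unif 1)), Ev c ω 0 (ψ ((af1 2 c 0 hc0.ne').symm ω)) := by
    rw [← map_af c hc0, (af1 2 c 0 hc0.ne').measurableEmbedding.ae_map_iff]
    refine hψ.mono fun ω hω => ?_
    rw [MeasurableEquiv.symm_apply_apply]
    exact (ev_af c hc0.ne' ω 0 (ψ ω)).1 hω
  have hint : ∀ t x, ∫ ω, ‖ψ ((af1 2 c 0 hc0.ne').symm ω) t x‖ ^ 2 ∂(PZ 2 (unif 1)) =
      ∫ ω, ‖ψ ω t x‖ ^ 2 ∂(PZ 2 (unif c)) := by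
    intro t x
    rw [← map_af c hc0, integral_map_equiv]
    simp only [MeasurableEquiv.symm_apply_apply]
  have hres := h (unif 1) (unif_bdd 1) (1 / 3) unif_var le_rfl c hc0 hc1
    (fun ω => ψ ((af1 2 c 0 hc0.ne').symm ω)) hψ'
  simp only [hint] at hres
  exact hres

end Pool.Agent.Zk71.S2
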